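import Pool.Agent.H126M.Convex
import Pool.Agent.H755R2.MT.Hilbert
import Pool.Agent.H305R3.Rot.Amen

set_option autoImplicit false
set_option linter.unusedSectionVars false

/-!
# Weakly uniformly micro-transitive norms are Hilbertian
-/

namespace Pool.H126M

open TopologicalSpace Pool.H755R2.MT

variable {E : Type} [NormedAddCommGroup E] [NormedSpace ℝ E]

/-- the two pinching estimates -/
theorem pinched [CompleteSpace E] [SeparableSpace E] {κ γ t : ℝ}
    (hrank : 1 < Module.rank ℝ E) (hκ : κ < 1) (hγ : 0 < γ) (ht : 0 < t) (h : WULT E κ γ t) :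
    ∃ c C : ℝ, 0 < c ∧ 0 < C ∧
      (∀ z w : E, c * ‖w‖ ^ 2 ≤ ‖z + w‖ ^ 2 + ‖z - w‖ ^ 2 - 2 * ‖z‖ ^ 2) ∧
      (∀ z w : E, ‖z + w‖ ^ 2 + ‖z - w‖ ^ 2 - 2 * ‖z‖ ^ 2 ≤ C * ‖w‖ ^ 2) := by
  have h' : WULT E κ (min γ 1) t := by
    intro x y u φ hx hy hu hφ hxy hφu η hη
    obtain ⟨T, h1, h2⟩ := h x y u φ hx hy hu hφ hxy hφu η hη
    exact ⟨T, h1, (min_le_left _ _).trans h2⟩
  have hγ' : 0 < min γ 1 := lt_min hγ one_pos
  obtain ⟨K, hK0, hK⟩ := smooth_of_WULT hκ hγ' ht h'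
  obtain ⟨c, hc0, hc⟩ := quad_slice hrank hκ hγ' (min_le_right _ _) ht h' hK0 hK
  obtain ⟨K', hK'0, hK'⟩ := dual_smooth hK0 hK hc0 hc
  exact ⟨4 / (2 + 2 * K'), 2 + 2 * K, by positivity, by positivity,
    sq_lower (by positivity) (sq_upper hK'), sq_upper hK⟩

/-- the main theorem -/
theorem main [CompleteSpace E] [SeparableSpace E] {κ γ t : ℝ} (hκ : κ < 1) (hγ : 0 < γ)
    (ht : 0 < t) (h : WULT E κ γ t) :
    ∃ (H : Type) (instH : NormedAddCommGroup H) (instI : InnerProductSpace ℝ H)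
      (instC : CompleteSpace H), Nonempty (E ≃L[ℝ] H) := by
  rcases lt_or_ge 1 (Module.rank ℝ E) with hrank | hrank
  · obtain ⟨c, C, hc, hC, h1, h2⟩ := pinched hrank hκ hγ ht h
    exact hilbert_of_bounds hc hC.le h1 h2
  · have : FiniteDimensional ℝ E :=
      Module.rank_lt_aleph0_iff.1 (lt_of_le_of_lt hrank Cardinal.one_lt_aleph0)
    exact ⟨EuclideanSpace ℝ (Fin (Module.finrank ℝ E)), inferInstance, inferInstance,
      inferInstance, ⟨toEuclidean⟩⟩

open Pool.H305R3.Rot in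
/-- an almost transitive norm with amenable isometry group on a space isomorphic to a Hilbert space
comes from an inner product -/
theorem isometric_of_amenable'
    (htr : ∀ x y : E, ‖x‖ = 1 → ‖y‖ = 1 → ∀ η : ℝ, 0 < η → ∃ T : E ≃ₗᵢ[ℝ] E, ‖T x - y‖ ≤ η)
    [CompleteSpace E] (hA : SOTAmenable E) (x : E) (hx : ‖x‖ = 1)
    {H : Type} [NormedAddCommGroup H] [InnerProductSpace ℝ H] (A : E ≃L[ℝ] H) :
    ∃ (H : Type) (_ : NormedAddCommGroup H) (_ : InnerProductSpace ℝ H)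
      (_ : CompleteSpace H), Nonempty (E ≃ₗᵢ[ℝ] H) := by
  obtain ⟨M, hadd, hmul, hpos, hone, hinv⟩ := hA
  set q : E → ℝ := fun y => M (fun T => ‖A (T y)‖ ^ 2) with hq
  have hqS : ∀ (S : E ≃ₗᵢ[ℝ] E) (y : E), q (S y) = q y := by
    intro S y
    exact hinv S (fun T => ‖A (T y)‖ ^ 2) (uc_sq A y)
  have hqm : ∀ (r : ℝ) (y : E), q (r • y) = r ^ 2 * q y := by
    intro r y
    have h1 : (fun T : E ≃ₗᵢ[ℝ] E => ‖A (T (r • y))‖ ^ 2) =
        fun T => r ^ 2 * ‖A (T y)‖ ^ 2 := by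
      funext T
      rw [map_smul, map_smul, norm_smul, mul_pow, Real.norm_eq_abs, sq_abs]
    show M _ = _
    rw [h1, hmul _ _ (uc_sq A y)]
  have hqp : ∀ y z : E, q (y + z) + q (y - z) = 2 * q y + 2 * q z := by
    intro y z
    have h1 := hadd _ _ (uc_sq A (y + z)) (uc_sq A (y - z))
    have h2 := hadd _ _ (uc_mul 2 (uc_sq A y)) (uc_mul 2 (uc_sq A z))
    rw [hmul _ _ (uc_sq A y), hmul _ _ (uc_sq A z)] at h2
    have h3 : (fun T : E ≃ₗᵢ[ℝ] E => ‖A (T (y + z))‖ ^ 2 + ‖A (T (y - z))‖ ^ 2) =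
        fun T => 2 * ‖A (T y)‖ ^ 2 + 2 * ‖A (T z)‖ ^ 2 := by
      funext T
      rw [map_add, map_add, map_sub, map_sub]
      have := parallelogram_law_with_norm ℝ (A (T y)) (A (T z))
      nlinarith
    rw [h3] at h1
    rw [← h1, h2]
  have hq1 : 0 < q x := by
    obtain ⟨a, ha⟩ : ∃ a : ℝ, a = ‖(A.symm : H →L[ℝ] E)‖ := ⟨_, rfl⟩
    have hb : ∀ T : E ≃ₗᵢ[ℝ] E, 1 ≤ a * ‖A (T x)‖ := by
      intro T
      have h1 := (A.symm : H →L[ℝ] E).le_opNorm (A (T x))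
      have h2 : (A.symm : H →L[ℝ] E) (A (T x)) = T x := A.symm_apply_apply _
      rw [h2, T.norm_map, hx, ← ha] at h1
      exact h1
    have ha0 : 0 < a := by
      have h1 := hb (LinearIsometryEquiv.refl ℝ E)
      have h2 : 0 ≤ a := by rw [ha]; exact norm_nonneg _
      rcases h2.eq_or_lt with h3 | h3
      · rw [← h3, zero_mul] at h1; linarith
      · exact h3
    have h2 : 0 ≤ M (fun T => ‖A (T x)‖ ^ 2 + (-(1 / a ^ 2))) := by
      refine hpos _ (uc_add (uc_sq A x) (uc_const _)) fun T => ?_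
      have h3 := hb T
      have h4 : 1 ≤ (a * ‖A (T x)‖) ^ 2 := by nlinarith
      have h5 : 1 / a ^ 2 ≤ ‖A (T x)‖ ^ 2 := by
        rw [div_le_iff₀ (by positivity)]
        nlinarith
      linarith
    rw [hadd _ _ (uc_sq A x) (uc_const _)] at h2
    have h3 := hmul (-(1 / a ^ 2)) (fun _ => 1) (uc_const 1)
    simp only [mul_one] at h3
    rw [h3, hone] at h2
    have h4 : 0 < 1 / a ^ 2 := by positivity
    show 0 < M _
    linarith
  obtain ⟨a, ha⟩ : ∃ a : ℝ, a = ‖(A : E →L[ℝ] H)‖ := ⟨_, rfl⟩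
  have ha0 : 0 ≤ a := by rw [ha]; exact norm_nonneg _
  have hcst : ∀ r : ℝ, M (fun _ => r) = r := by
    intro r
    have h3 := hmul r (fun _ => 1) (uc_const 1)
    simp only [mul_one] at h3
    rw [h3, hone, mul_one]
  have hlip : ∀ y z : E, ‖y‖ = 1 → ‖z‖ = 1 → q y ≤ q z + 2 * a ^ 2 * ‖y - z‖ := by
    intro y z hy hz
    set r : ℝ := 2 * a ^ 2 * ‖y - z‖ with hr
    have h1 : 0 ≤ M (fun T => (‖A (T z)‖ ^ 2 + r) + -1 * ‖A (T y)‖ ^ 2) := by
      refine hpos _ (uc_add (uc_add (uc_sq A z) (uc_const r)) (uc_mul (-1) (uc_sq A y)))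
        fun T => ?_
      have b1 : ‖A (T y)‖ ≤ a := by
        have := (A : E →L[ℝ] H).le_opNorm (T y)
        rw [T.norm_map, hy, mul_one, ← ha] at this
        exact this
      have b2 : ‖A (T z)‖ ≤ a := by
        have := (A : E →L[ℝ] H).le_opNorm (T z)
        rw [T.norm_map, hz, mul_one, ← ha] at this
        exact this
      have b3 : ‖A (T y)‖ - ‖A (T z)‖ ≤ a * ‖y - z‖ := by
        refine (norm_sub_norm_le _ _).trans ?_
        rw [← map_sub, ← map_sub]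
        have := (A : E →L[ℝ] H).le_opNorm (T (y - z))
        rw [T.norm_map, ← ha] at this
        exact this
      have b4 : ‖A (T y)‖ ^ 2 - ‖A (T z)‖ ^ 2 ≤ r := by
        rcases le_or_gt (‖A (T y)‖) (‖A (T z)‖) with hle | hgt
        · have h5 : ‖A (T y)‖ ^ 2 ≤ ‖A (T z)‖ ^ 2 := pow_le_pow_left₀ (norm_nonneg _) hle 2
          have h6 : 0 ≤ r := by positivity
          linarith
        · have h5 : ‖A (T y)‖ ^ 2 - ‖A (T z)‖ ^ 2 =
              (‖A (T y)‖ - ‖A (T z)‖) * (‖A (T y)‖ + ‖A (T z)‖) := by ring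
          have h6 : (‖A (T y)‖ - ‖A (T z)‖) * (‖A (T y)‖ + ‖A (T z)‖) ≤
              (a * ‖y - z‖) * (2 * a) :=
            mul_le_mul b3 (by linarith) (by positivity) (by positivity)
          rw [h5, hr]
          linarith
      linarith
    rw [hadd _ _ (uc_add (uc_sq A z) (uc_const r)) (uc_mul (-1) (uc_sq A y)),
      hadd _ _ (uc_sq A z) (uc_const r), hmul _ _ (uc_sq A y), hcst] at h1
    show M _ ≤ M _ + r
    linarith
  have hunit : ∀ y : E, ‖y‖ = 1 → q y = q x := by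
    intro y hy
    have hε : ∀ ε : ℝ, 0 < ε → q y ≤ q x + ε ∧ q x ≤ q y + ε := by
      intro ε hε
      obtain ⟨S, hS⟩ := htr x y hx hy (ε / (2 * a ^ 2 + 1)) (by positivity)
      have hSx : ‖S x‖ = 1 := by rw [S.norm_map, hx]
      have h1 := hlip y (S x) hy hSx
      have h2 := hlip (S x) y hSx hy
      rw [norm_sub_rev] at h1
      rw [hqS] at h1 h2
      have h3 : 2 * a ^ 2 * ‖S x - y‖ ≤ ε := by
        rw [le_div_iff₀ (by positivity)] at hS
        nlinarith [norm_nonneg (S x - y)]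
      constructor <;> linarith
    apply le_antisymm
    · exact le_of_forall_pos_le_add fun ε h => (hε ε h).1
    · exact le_of_forall_pos_le_add fun ε h => (hε ε h).2
  have hqn : ∀ y : E, q y = q x * ‖y‖ ^ 2 := by
    intro y
    rcases eq_or_ne y 0 with rfl | hy
    · have := hqm 0 0
      rw [zero_smul] at this
      rw [this]; simp
    · have hy0 : 0 < ‖y‖ := norm_pos_iff.2 hy
      have h1 := hunit (‖y‖⁻¹ • y) (by
        rw [norm_smul, norm_inv, norm_norm, inv_mul_cancel₀ hy0.ne'])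
      rw [hqm] at h1
      have h2 : ‖y‖⁻¹ ^ 2 * q y * ‖y‖ ^ 2 = q y := by field_simp
      rw [← h2, h1]
  have key : ∀ y z : E,
      ‖y + z‖ * ‖y + z‖ + ‖y - z‖ * ‖y - z‖ = 2 * (‖y‖ * ‖y‖ + ‖z‖ * ‖z‖) := by
    intro y z
    have h1 := hqp y z
    rw [hqn (y + z), hqn (y - z), hqn y, hqn z] at h1
    have h2 : q x * (‖y + z‖ ^ 2 + ‖y - z‖ ^ 2) = q x * (2 * (‖y‖ ^ 2 + ‖z‖ ^ 2)) := by linarith
    have h3 := mul_left_cancel₀ hq1.ne' h2
    nlinarith
  exact ⟨E, inferInstance, InnerProductSpace.ofNorm ℝ key, inferInstance,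
    ⟨LinearIsometryEquiv.refl ℝ E⟩⟩

end Pool.H126M
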