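import Pool.Agent.H126M.Main

set_option autoImplicit false
set_option linter.unusedSectionVars false

/-!
# Reduction to one point, and spaces of dimension at most one
-/

namespace Pool.H126M

open TopologicalSpace Pool.H755R2.MT

variable {E : Type} [NormedAddCommGroup E] [NormedSpace ℝ E]

lemma norm_comp_isom (φ : StrongDual ℝ E) (S : E ≃ₗᵢ[ℝ] E) :
    ‖φ.comp (S : E →L[ℝ] E)‖ = ‖φ‖ := by
  apply le_antisymm
  · refine ContinuousLinearMap.opNorm_le_bound _ (norm_nonneg _) fun w => ?_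
    have : (φ.comp (S : E →L[ℝ] E)) w = φ (S w) := rfl
    rw [this]
    refine (φ.le_opNorm _).trans ?_
    rw [S.norm_map]
  · refine ContinuousLinearMap.opNorm_le_bound _ (norm_nonneg _) fun w => ?_
    have h1 : φ w = (φ.comp (S : E →L[ℝ] E)) (S.symm w) := by
      show φ w = φ (S (S.symm w))
      rw [S.apply_symm_apply]
    rw [h1]
    refine ((φ.comp (S : E →L[ℝ] E)).le_opNorm _).trans ?_
    rw [S.symm.norm_map]

lemma wult_of_point {κ γ t : ℝ} {x₀ : E} (ht : 0 < t)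
    (htr : ∀ x y : E, ‖x‖ = 1 → ‖y‖ = 1 → ∀ η : ℝ, 0 < η → ∃ T : E ≃ₗᵢ[ℝ] E, ‖T x - y‖ ≤ η)
    (hx₀ : ‖x₀‖ = 1)
    (h : ∀ (y u : E) (φ : StrongDual ℝ E), ‖y‖ = 1 → ‖u‖ = 1 → ‖φ‖ = 1 → ‖y - x₀‖ ≤ t →
      κ ≤ φ u → ∀ η : ℝ, 0 < η → ∃ T : E ≃ₗᵢ[ℝ] E, ‖T x₀ - y‖ ≤ η ∧ γ ≤ φ (T u)) :
    WULT E κ γ (t / 2) := by
  intro x y u φ hx hy hu hφ hxy hφu η hη
  obtain ⟨S, hS⟩ := htr x₀ x hx₀ hx (min (η / 2) (t / 2)) (lt_min (by positivity) (by positivity))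
  have hS1 : ‖S x₀ - x‖ ≤ η / 2 := hS.trans (min_le_left _ _)
  have hS2 : ‖S x₀ - x‖ ≤ t / 2 := hS.trans (min_le_right _ _)
  obtain ⟨T, hT1, hT2⟩ := h (S.symm y) (S.symm u) (φ.comp (S : E →L[ℝ] E))
    (by rw [S.symm.norm_map, hy]) (by rw [S.symm.norm_map, hu]) (by rw [norm_comp_isom, hφ])
    (by
      have e1 : S.symm y - x₀ = S.symm ((y - x) + (x - S x₀)) := by
        rw [map_add, map_sub, map_sub, S.symm_apply_apply]; abel
      rw [e1, S.symm.norm_map]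
      refine (norm_add_le _ _).trans ?_
      rw [norm_sub_rev y x, norm_sub_rev x (S x₀)]
      linarith)
    (by
      show κ ≤ φ (S (S.symm u))
      rw [S.apply_symm_apply]
      exact hφu)
    (η / 2) (by positivity)
  refine ⟨S.symm.trans (T.trans S), ?_, ?_⟩
  · rw [LinearIsometryEquiv.trans_apply, LinearIsometryEquiv.trans_apply]
    have e1 : S (T (S.symm x)) - y = S (T (S.symm (x - S x₀)) + (T x₀ - S.symm y)) := by
      rw [map_add, map_sub, map_sub, map_sub, map_sub, S.apply_symm_apply, S.symm_apply_apply]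
      abel
    rw [e1, S.norm_map]
    refine (norm_add_le _ _).trans ?_
    rw [T.norm_map, S.symm.norm_map, norm_sub_rev x (S x₀)]
    linarith
  · rw [LinearIsometryEquiv.trans_apply, LinearIsometryEquiv.trans_apply]
    exact hT2

/-- almost transitivity in dimension at most one -/
lemma almost_transitive_le_one (hrank : Module.rank ℝ E ≤ 1) (x y : E) (hx : ‖x‖ = 1)
    (hy : ‖y‖ = 1) : ∀ η : ℝ, 0 < η → ∃ T : E ≃ₗᵢ[ℝ] E, ‖T x - y‖ ≤ η := by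
  intro η hη
  obtain ⟨v, hv⟩ := rank_le_one_iff.1 hrank
  obtain ⟨r, rfl⟩ := hv x
  obtain ⟨s, rfl⟩ := hv y
  rw [norm_smul, Real.norm_eq_abs] at hx hy
  have hv0 : ‖v‖ ≠ 0 := by
    intro h0
    rw [h0, mul_zero] at hx
    exact zero_ne_one hx
  have hrs : |r| = |s| := mul_right_cancel₀ hv0 (hx.trans hy.symm)
  rcases abs_eq_abs.1 hrs with h1 | h1
  · refine ⟨LinearIsometryEquiv.refl ℝ E, ?_⟩
    rw [h1]
    simpa using hη.le
  · refine ⟨LinearIsometryEquiv.neg ℝ, ?_⟩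
    rw [h1]
    simpa using hη.le

/-- an orbit which is dense near one point of the sphere is dense in the sphere -/
lemma dense_of_point {t : ℝ} {x₀ : E} (hrank : 1 < Module.rank ℝ E) (ht : 0 < t)
    (hx₀ : ‖x₀‖ = 1)
    (h : ∀ y : E, ‖y‖ = 1 → ‖y - x₀‖ ≤ t → ∀ η : ℝ, 0 < η → ∃ T : E ≃ₗᵢ[ℝ] E, ‖T x₀ - y‖ ≤ η)
    (y : E) (hy : ‖y‖ = 1) :
    ∀ η : ℝ, 0 < η → ∃ T : E ≃ₗᵢ[ℝ] E, ‖T x₀ - y‖ ≤ η := by
  have hS : IsPreconnected (Metric.sphere (0 : E) 1) := isPreconnected_sphere hrank 0 1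
  rw [isPreconnected_iff_subset_of_disjoint] at hS
  have ht2 : 0 < t / 2 := by positivity
  set O : Set E := {z | ‖z‖ = 1 ∧ ∀ η : ℝ, 0 < η → ∃ T : E ≃ₗᵢ[ℝ] E, ‖T x₀ - z‖ ≤ η} with hO
  set N : Set E := {z | ‖z‖ = 1 ∧ ¬ ∀ η : ℝ, 0 < η → ∃ T : E ≃ₗᵢ[ℝ] E, ‖T x₀ - z‖ ≤ η} with hN
  set u : Set E := ⋃ z ∈ O, Metric.ball z (t / 2) with hu
  set v : Set E := ⋃ z ∈ N, Metric.ball z (t / 2) with hv
  have huo : IsOpen u := isOpen_biUnion fun z _ => Metric.isOpen_ball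
  have hvo : IsOpen v := isOpen_biUnion fun z _ => Metric.isOpen_ball
  have hcl : ∀ z w : E, ‖w‖ = 1 → ‖z - w‖ < t / 2 →
      (∀ η : ℝ, 0 < η → ∃ T : E ≃ₗᵢ[ℝ] E, ‖T x₀ - z‖ ≤ η) →
      ∀ η : ℝ, 0 < η → ∃ T : E ≃ₗᵢ[ℝ] E, ‖T x₀ - w‖ ≤ η := by
    intro z w hw hzw hT η hη
    obtain ⟨S, hS⟩ := hT (t / 2) ht2
    obtain ⟨T, hT'⟩ := h (S.symm w) (by rw [S.symm.norm_map, hw]) (by
      have e1 : S.symm w - x₀ = S.symm (-(z - w) - (S x₀ - z)) := by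
        rw [map_sub, map_neg, map_sub, map_sub, S.symm_apply_apply]; abel
      rw [e1, S.symm.norm_map]
      refine (norm_sub_le _ _).trans ?_
      rw [norm_neg]
      linarith) η hη
    refine ⟨T.trans S, ?_⟩
    rw [LinearIsometryEquiv.trans_apply]
    have e1 : S (T x₀) - w = S (T x₀ - S.symm w) := by
      rw [map_sub, S.apply_symm_apply]
    rw [e1, S.norm_map]
    exact hT'
  have hcov : Metric.sphere (0 : E) 1 ⊆ u ∪ v := by
    intro z hz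
    rw [mem_sphere_zero_iff_norm] at hz
    by_cases hzO : ∀ η : ℝ, 0 < η → ∃ T : E ≃ₗᵢ[ℝ] E, ‖T x₀ - z‖ ≤ η
    · left
      exact Set.mem_biUnion (show z ∈ O from ⟨hz, hzO⟩) (Metric.mem_ball_self ht2)
    · right
      exact Set.mem_biUnion (show z ∈ N from ⟨hz, hzO⟩) (Metric.mem_ball_self ht2)
  have hdis : Metric.sphere (0 : E) 1 ∩ (u ∩ v) = ∅ := by
    rw [Set.eq_empty_iff_forall_notMem]
    rintro z ⟨hz, hzu, hzv⟩
    rw [mem_sphere_zero_iff_norm] at hz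
    obtain ⟨a, ha, hza⟩ := Set.mem_iUnion₂.1 hzu
    obtain ⟨b, hb, hzb⟩ := Set.mem_iUnion₂.1 hzv
    rw [Metric.mem_ball, dist_eq_norm] at hza hzb
    have h1 := hcl a z hz (by rwa [norm_sub_rev]) ha.2
    exact hb.2 (hcl z b hb.1 hzb h1)
  rcases hS u v huo hvo hcov hdis with h1 | h1
  · have h2 := h1 (mem_sphere_zero_iff_norm.2 hy)
    obtain ⟨a, ha, hza⟩ := Set.mem_iUnion₂.1 h2
    rw [Metric.mem_ball, dist_eq_norm] at hza
    exact hcl a y hy (by rwa [norm_sub_rev]) ha.2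
  · exfalso
    have h2 := h1 (mem_sphere_zero_iff_norm.2 hx₀)
    obtain ⟨a, ha, hza⟩ := Set.mem_iUnion₂.1 h2
    rw [Metric.mem_ball, dist_eq_norm] at hza
    exact ha.2 (hcl x₀ a ha.1 hza fun η hη =>
      ⟨LinearIsometryEquiv.refl ℝ E, by simpa using hη.le⟩)

/-- an orbit which is dense near one point of the sphere: all orbits are dense in the sphere -/
lemma almost_transitive_of_point {t : ℝ} {x₀ : E} (ht : 0 < t) (hx₀ : ‖x₀‖ = 1)
    (h : ∀ y : E, ‖y‖ = 1 → ‖y - x₀‖ ≤ t → ∀ η : ℝ, 0 < η → ∃ T : E ≃ₗᵢ[ℝ] E, ‖T x₀ - y‖ ≤ η)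
    (x y : E) (hx : ‖x‖ = 1) (hy : ‖y‖ = 1) :
    ∀ η : ℝ, 0 < η → ∃ T : E ≃ₗᵢ[ℝ] E, ‖T x - y‖ ≤ η := by
  rcases lt_or_ge 1 (Module.rank ℝ E) with hrank | hrank
  · intro η hη
    obtain ⟨T, hT⟩ := dense_of_point hrank ht hx₀ h x hx (η / 2) (half_pos hη)
    obtain ⟨S, hS⟩ := dense_of_point hrank ht hx₀ h y hy (η / 2) (half_pos hη)
    refine ⟨T.symm.trans S, ?_⟩
    rw [LinearIsometryEquiv.trans_apply]
    have e1 : S (T.symm x) - y = S (T.symm (x - T x₀)) + (S x₀ - y) := by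
      rw [map_sub, map_sub, T.symm_apply_apply]; abel
    rw [e1]
    refine (norm_add_le _ _).trans ?_
    rw [S.norm_map, T.symm.norm_map, norm_sub_rev]
    linarith
  · exact almost_transitive_le_one hrank x y hx hy

/-- almost transitivity in all dimensions -/
lemma almost_transitive_all {κ γ t : ℝ} (hκ : κ < 1) (ht : 0 < t)
    (h : WULT E κ γ t) (x y : E) (hx : ‖x‖ = 1) (hy : ‖y‖ = 1) :
    ∀ η : ℝ, 0 < η → ∃ T : E ≃ₗᵢ[ℝ] E, ‖T x - y‖ ≤ η := by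
  rcases lt_or_ge 1 (Module.rank ℝ E) with hrank | hrank
  · exact almost_transitive hrank hκ ht h x y hx hy
  · exact almost_transitive_le_one hrank x y hx hy

/-- the hypothesis at one point implies the hypothesis at all points -/
lemma wult_of_one_point {κ γ t : ℝ} {x₀ : E} (hκ : κ < 1) (ht : 0 < t) (hx₀ : ‖x₀‖ = 1)
    (h : ∀ (y u : E) (φ : StrongDual ℝ E), ‖y‖ = 1 → ‖u‖ = 1 → ‖φ‖ = 1 → ‖y - x₀‖ ≤ t →
      κ ≤ φ u → ∀ η : ℝ, 0 < η → ∃ T : E ≃ₗᵢ[ℝ] E, ‖T x₀ - y‖ ≤ η ∧ γ ≤ φ (T u)) :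
    WULT E κ γ (t / 2) := by
  refine wult_of_point ht (almost_transitive_of_point ht hx₀ ?_) hx₀ h
  intro y hy hyx η hη
  obtain ⟨φ, hφ1, hφ2⟩ := exists_dual_vector ℝ x₀ (by rw [hx₀]; exact one_ne_zero)
  have hφx : φ x₀ = 1 := by rw [hφ2, hx₀]; simp
  obtain ⟨T, hT, _⟩ := h y x₀ φ hy hx₀ hφ1 hyx (by rw [hφx]; exact hκ.le) η hη
  exact ⟨T, hT⟩

lemma zero_case (h : ¬ ∃ x : E, ‖x‖ = 1) :
    ∃ (H : Type) (instH : NormedAddCommGroup H) (instI : InnerProductSpace ℝ H)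
      (instC : CompleteSpace H), Nonempty (E ≃ₗᵢ[ℝ] H) := by
  have h0 : ∀ v : E, v = 0 := by
    intro v
    by_contra hv
    apply h
    refine ⟨‖v‖⁻¹ • v, ?_⟩
    rw [norm_smul, norm_inv, norm_norm, inv_mul_cancel₀ (norm_ne_zero_iff.2 hv)]
  refine ⟨EuclideanSpace ℝ (Fin 0), inferInstance, inferInstance, inferInstance, ⟨?_⟩⟩
  exact
    { toFun := fun _ => 0
      invFun := fun _ => 0
      map_add' := fun _ _ => by simp
      map_smul' := fun _ _ => by simp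
      left_inv := fun v => (h0 v).symm
      right_inv := fun v => Subsingleton.elim _ _
      norm_map' := fun v => by rw [h0 v]; simp }

/-- both conclusions -/
theorem main_both [CompleteSpace E] [SeparableSpace E] {κ γ t : ℝ} (hκ : κ < 1) (hγ : 0 < γ)
    (ht : 0 < t) (h : WULT E κ γ t) :
    (∃ (H : Type) (instH : NormedAddCommGroup H) (instI : InnerProductSpace ℝ H)
      (instC : CompleteSpace H), Nonempty (E ≃L[ℝ] H)) ∧
    (Pool.H305R3.Rot.SOTAmenable E →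
      ∃ (H : Type) (instH : NormedAddCommGroup H) (instI : InnerProductSpace ℝ H)
        (instC : CompleteSpace H), Nonempty (E ≃ₗᵢ[ℝ] H)) := by
  refine ⟨main hκ hγ ht h, fun hA => ?_⟩
  by_cases hx : ∃ x : E, ‖x‖ = 1
  · obtain ⟨x, hx⟩ := hx
    obtain ⟨H, i1, i2, i3, ⟨A⟩⟩ := main hκ hγ ht h
    exact isometric_of_amenable' (almost_transitive_all hκ ht h) hA x hx A
  · exact zero_case hx

end Pool.H126M
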