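import Pool.Agent.H126M.SemiSlice
import Pool.Agent.H126M.Point

set_option autoImplicit false
set_option linter.unusedSectionVars false

/-!
# Contractions: reduction to a set of points whose orbits are dense
-/

namespace Pool.H126M

open TopologicalSpace Pool.H755R2.MT

variable {E : Type} [NormedAddCommGroup E] [NormedSpace ℝ E]

lemma sult_of_set {κ γ t : ℝ} {X : Set E} (ht : 0 < t)
    (hd : ∀ y : E, ‖y‖ = 1 → ∀ η : ℝ, 0 < η → ∃ x ∈ X, ∃ S : E ≃ₗᵢ[ℝ] E, ‖S x - y‖ ≤ η)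
    (h : ∀ x ∈ X, ∀ (y u : E) (φ : StrongDual ℝ E), ‖y‖ = 1 → ‖u‖ = 1 → ‖φ‖ = 1 →
      ‖y - x‖ ≤ t → κ ≤ φ u → ∀ η : ℝ, 0 < η →
        ∃ T : E →L[ℝ] E, ‖T‖ ≤ 1 ∧ ‖T x - y‖ ≤ η ∧ γ ≤ φ (T u)) :
    SULT E κ γ (t / 2) := by
  intro x y u φ hx hy hu hφ hxy hφu η hη
  obtain ⟨x₀, hx₀, S, hS⟩ := hd x hx (min (η / 2) (t / 2)) (lt_min (by positivity) (by positivity))
  have hS1 : ‖S x₀ - x‖ ≤ η / 2 := hS.trans (min_le_left _ _)
  have hS2 : ‖S x₀ - x‖ ≤ t / 2 := hS.trans (min_le_right _ _)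
  obtain ⟨T, hT0, hT1, hT2⟩ := h x₀ hx₀ (S.symm y) (S.symm u) (φ.comp (S : E →L[ℝ] E))
    (by rw [S.symm.norm_map, hy]) (by rw [S.symm.norm_map, hu]) (by rw [norm_comp_isom, hφ])
    (by
      have e1 : S.symm y - x₀ = S.symm ((y - x) + (x - S x₀)) := by
        rw [map_add, map_sub, map_sub, S.symm_apply_apply]; abel
      rw [e1, S.symm.norm_map]
      refine (norm_add_le _ _).trans ?_
      rw [norm_sub_rev y x, norm_sub_rev x (S x₀)]
      linarith)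
    (by
      show κ ≤ φ (S (S.symm u))
      rw [S.apply_symm_apply]
      exact hφu)
    (η / 2) (by positivity)
  set T' : E →L[ℝ] E := (S : E →L[ℝ] E).comp (T.comp (S.symm : E →L[ℝ] E)) with hT'
  have hTa : ∀ w, T' w = S (T (S.symm w)) := fun w => rfl
  refine ⟨T', ?_, ?_, ?_⟩
  · refine ContinuousLinearMap.opNorm_le_bound _ zero_le_one fun w => ?_
    rw [hTa, S.norm_map, one_mul]
    refine (contr_le hT0 _).trans ?_
    rw [S.symm.norm_map]
  · rw [hTa]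
    have e1 : S (T (S.symm x)) - y = S (T (S.symm (x - S x₀)) + (T x₀ - S.symm y)) := by
      rw [map_add, map_sub, map_sub, map_sub, map_sub, S.apply_symm_apply, S.symm_apply_apply]
      abel
    rw [e1, S.norm_map]
    refine (norm_add_le _ _).trans ?_
    have e2 := contr_le hT0 (S.symm (x - S x₀))
    rw [S.symm.norm_map, norm_sub_rev x (S x₀)] at e2
    linarith
  · rw [hTa]
    exact hT2

/-- the amenable case -/
lemma isometric_semi [CompleteSpace E]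
    (htr : ∀ x y : E, ‖x‖ = 1 → ‖y‖ = 1 → ∀ η : ℝ, 0 < η → ∃ T : E ≃ₗᵢ[ℝ] E, ‖T x - y‖ ≤ η)
    (hA : Pool.H305R3.Rot.SOTAmenable E)
    (hH : ∃ (H : Type) (instH : NormedAddCommGroup H) (instI : InnerProductSpace ℝ H)
      (instC : CompleteSpace H), Nonempty (E ≃L[ℝ] H)) :
    ∃ (H : Type) (instH : NormedAddCommGroup H) (instI : InnerProductSpace ℝ H)
      (instC : CompleteSpace H), Nonempty (E ≃ₗᵢ[ℝ] H) := by
  by_cases hx : ∃ x : E, ‖x‖ = 1
  · obtain ⟨x, hx⟩ := hx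
    obtain ⟨H, i1, i2, i3, ⟨A⟩⟩ := hH
    exact isometric_of_amenable' htr hA x hx A
  · exact zero_case hx

end Pool.H126M
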