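import Pool.Agent.H126M.SemiSmooth
import Pool.Agent.H755R2.MT.Hilbert

set_option autoImplicit false
set_option linter.unusedSectionVars false

/-!
# Contractions instead of isometries: small slices, duality, the theorem
-/

namespace Pool.H126M

open TopologicalSpace Pool.H755R2.MT

section

variable {E : Type*} [NormedAddCommGroup E] [NormedSpace ℝ E]

/-- the slices at `x` are small -/
def SmallSlice (x : E) (ρ δ : ℝ) : Prop :=
  ∀ (f : StrongDual ℝ E) (z : E), ‖f‖ ≤ 1 → f x = 1 → ‖z‖ ≤ 1 → 1 - δ < f z → ‖z - x‖ ≤ ρ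

lemma smallSlice_neg {x : E} {ρ δ : ℝ} (h : SmallSlice x ρ δ) : SmallSlice (-x) ρ δ := by
  intro f z hf hfx hz hfz
  have h1 := h (-f) (-z) (by rwa [norm_neg]) (by
    show -(f x) = 1
    rw [map_neg] at hfx
    exact hfx) (by rwa [norm_neg]) (by
    show 1 - δ < -(f (-z))
    rw [map_neg, neg_neg]
    exact hfz)
  have h2 : z - -x = -(-z - x) := by abel
  rw [h2, norm_neg]
  exact h1

/-- transport of small slices by contractions -/
lemma slice_step {κ γ t K : ℝ} (hκ : κ < 1) (hγ : 0 < γ) (h : SULT E κ γ t) (hK0 : 0 < K)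
    (hK : ∀ x w : E, ‖x‖ = 1 → dl x w ≤ K * ‖w‖ ^ 2) {x₀ x : E} (hx₀ : ‖x₀‖ = 1) (hx : ‖x‖ = 1)
    (hxx : ‖x - x₀‖ ≤ t) {ρ δ : ℝ} (hρ : 0 < ρ) (hδ : 0 < δ) (hP : SmallSlice x₀ ρ δ) :
    SmallSlice x (2 / γ * ρ) (δ / 2) := by
  intro f z hf hfx hz hfz
  set v : E := z - x with hv
  rcases (norm_nonneg v).eq_or_lt with h0 | hvn
  · rw [← h0]; positivity
  set u : E := ‖v‖⁻¹ • v with hu
  have hun : ‖u‖ = 1 := by
    rw [hu, norm_smul, norm_inv, norm_norm, inv_mul_cancel₀ hvn.ne']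
  have hvu : v = ‖v‖ • u := by
    rw [hu, smul_inv_smul₀ hvn.ne']
  obtain ⟨φ, hφ1, hφ2⟩ := exists_dual_vector ℝ u (by rw [hun]; exact one_ne_zero)
  have hφu : φ u = 1 := by rw [hφ2, hun]; simp
  obtain ⟨f₀, hf₀1, hf₀2⟩ := exists_dual_vector ℝ x₀ (by rw [hx₀]; exact one_ne_zero)
  have hf₀x : f₀ x₀ = 1 := by rw [hf₀2, hx₀]; simp
  have hale : ∀ (F : StrongDual ℝ E), ‖F‖ ≤ 1 → ∀ z, F z ≤ ‖z‖ := by
    intro F hF z
    refine (le_abs_self _).trans ?_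
    have := F.le_opNorm z
    rw [Real.norm_eq_abs] at this
    refine this.trans ?_
    nlinarith [norm_nonneg z]
  set η : ℝ := min ρ (δ ^ 2 / (16 * K)) with hη
  have hη0 : 0 < η := lt_min hρ (by positivity)
  have hη1 : η ≤ ρ := min_le_left _ _
  have hη2 : η ≤ δ ^ 2 / (16 * K) := min_le_right _ _
  have hsq : Real.sqrt (K * η) ≤ δ / 4 := by
    rw [← Real.sqrt_sq (show 0 ≤ δ / 4 by positivity)]
    apply Real.sqrt_le_sqrt
    have : K * η ≤ K * (δ ^ 2 / (16 * K)) := mul_le_mul_of_nonneg_left hη2 hK0.le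
    refine this.trans (le_of_eq ?_)
    field_simp
    ring
  obtain ⟨T, hT0, hT1, hT2⟩ := h x x₀ u φ hx hx₀ hun hφ1 hxx (by rw [hφu]; exact hκ.le) η hη0
  set g : StrongDual ℝ E := f₀.comp T with hg
  have hga : ∀ w, g w = f₀ (T w) := fun w => rfl
  have hgn : ‖g‖ ≤ 1 := by
    refine ContinuousLinearMap.opNorm_le_bound _ zero_le_one fun w => ?_
    rw [hga]
    refine (f₀.le_opNorm _).trans ?_
    rw [hf₀1, one_mul, one_mul]
    exact contr_le hT0 w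
  have hgx : 1 - η ≤ g x := by
    have h1 := hale f₀ hf₀1.le (x₀ - T x)
    rw [map_sub, hf₀x, norm_sub_rev] at h1
    rw [hga]
    linarith
  have hd := fdiff hK0 hη0.le hK hx hf hgn hfx hgx z
  have hd2 : 2 * Real.sqrt (K * η) * ‖z‖ ≤ δ / 2 := by
    have h0 : 0 ≤ 2 * Real.sqrt (K * η) := by positivity
    have h1 : 2 * Real.sqrt (K * η) * ‖z‖ ≤ 2 * Real.sqrt (K * η) * 1 :=
      mul_le_mul_of_nonneg_left hz h0
    linarith
  have h1 := hP f₀ (T z) hf₀1.le hf₀x ((contr_le hT0 z).trans hz) (by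
    rw [← hga]
    have := (abs_le.1 (hd.trans hd2)).1
    linarith)
  have h2 : ‖T v‖ ≤ 2 * ρ := by
    have e1 : T v = (T z - x₀) - (T x - x₀) := by
      rw [hv, map_sub]; abel
    rw [e1]
    refine (norm_sub_le _ _).trans ?_
    linarith
  have h3 : γ * ‖v‖ ≤ φ (T v) := by
    have e1 : φ (T v) = ‖v‖ * φ (T u) := by
      conv_lhs => rw [hvu]
      rw [map_smul, map_smul, smul_eq_mul]
    rw [e1, mul_comm]
    exact mul_le_mul_of_nonneg_left hT2 hvn.le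
  have h4 := hale φ hφ1.le (T v)
  have h5 : 2 / γ * ρ = (2 * ρ) / γ := by ring
  rw [h5, le_div_iff₀ hγ]
  linarith

lemma slice_chain {κ γ t K : ℝ} (hκ : κ < 1) (hγ : 0 < γ) (h : SULT E κ γ t) (hK0 : 0 < K)
    (hK : ∀ x w : E, ‖x‖ = 1 → dl x w ≤ K * ‖w‖ ^ 2) {ρ δ : ℝ} (hρ : 0 < ρ) (hδ : 0 < δ)
    (n : ℕ) (p : ℕ → E) (hp : ∀ k, k ≤ n → ‖p k‖ = 1)
    (hpp : ∀ k, k < n → ‖p (k + 1) - p k‖ ≤ t) (hP : SmallSlice (p 0) ρ δ) :
    ∀ k, k ≤ n → SmallSlice (p k) ((2 / γ) ^ k * ρ) (δ / 2 ^ k) := by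
  intro k
  induction k with
  | zero =>
    intro _
    simpa using hP
  | succ k ih =>
    intro hk
    have h1 := slice_step hκ hγ h hK0 hK (hp k (by omega)) (hp (k + 1) hk) (hpp k (by omega))
      (by positivity) (by positivity) (ih (by omega))
    have e1 : (2 / γ) ^ (k + 1) * ρ = 2 / γ * ((2 / γ) ^ k * ρ) := by ring
    have e2 : δ / 2 ^ (k + 1) = δ / 2 ^ k / 2 := by
      rw [pow_succ, div_div]
    rw [e1, e2]
    exact h1

lemma normalize_sub {a b : E} (ha : 0 < ‖a‖) (hb : 0 < ‖b‖) :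
    ‖‖a‖⁻¹ • a - ‖b‖⁻¹ • b‖ ≤ 2 * (‖a‖⁻¹ * ‖a - b‖) := by
  have e1 : ‖a‖⁻¹ • a - ‖b‖⁻¹ • b = ‖a‖⁻¹ • (a - b) + (‖a‖⁻¹ - ‖b‖⁻¹) • b := by
    rw [smul_sub, sub_smul]; abel
  rw [e1]
  refine (norm_add_le _ _).trans ?_
  rw [norm_smul, norm_smul, norm_inv, norm_norm, Real.norm_eq_abs]
  have e2 : ‖a‖⁻¹ - ‖b‖⁻¹ = (‖b‖ - ‖a‖) * ‖a‖⁻¹ * ‖b‖⁻¹ := by field_simp
  have e3 : |‖a‖⁻¹ - ‖b‖⁻¹| * ‖b‖ = ‖a‖⁻¹ * |‖b‖ - ‖a‖| := by
    rw [e2, abs_mul, abs_mul, abs_of_pos (inv_pos.2 ha), abs_of_pos (inv_pos.2 hb)]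
    field_simp
  have e4 : |‖b‖ - ‖a‖| ≤ ‖a - b‖ := by
    rw [abs_sub_comm]
    exact abs_norm_sub_norm_le a b
  rw [e3]
  have e5 : ‖a‖⁻¹ * |‖b‖ - ‖a‖| ≤ ‖a‖⁻¹ * ‖a - b‖ :=
    mul_le_mul_of_nonneg_left e4 (inv_nonneg.2 ha.le)
  linarith

lemma seg_norm {x₀ x : E} (hx₀ : ‖x₀‖ = 1) (hx : ‖x‖ = 1) (hs : 1 ≤ ‖x + x₀‖) {s : ℝ}
    (hs0 : 0 ≤ s) (hs1 : s ≤ 1) : 1 / 4 ≤ ‖(1 - s) • x₀ + s • x‖ := by
  set q : E := (1 - s) • x₀ + s • x with hq
  have n1 : ‖(1 - s) • x₀‖ = 1 - s := by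
    rw [norm_smul, hx₀, mul_one, Real.norm_of_nonneg (by linarith)]
  have n2 : ‖s • x‖ = s := by
    rw [norm_smul, hx, mul_one, Real.norm_of_nonneg hs0]
  have h1 : 1 - s ≤ ‖q‖ + s := by
    have e1 : (1 - s) • x₀ = q - s • x := by rw [hq]; abel
    have := norm_sub_le q (s • x)
    rw [← e1, n1, n2] at this
    exact this
  have h2 : s ≤ ‖q‖ + (1 - s) := by
    have e1 : s • x = q - (1 - s) • x₀ := by rw [hq]; abel
    have := norm_sub_le q ((1 - s) • x₀)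
    rw [← e1, n1, n2] at this
    exact this
  have h3 : 1 / 2 ≤ ‖q‖ + |2 * s - 1| := by
    have e1 : (1 / 2 : ℝ) • (x + x₀) = q + (s - 1 / 2) • (x₀ - x) := by
      rw [hq]; module
    have e2 : 1 / 2 ≤ ‖(1 / 2 : ℝ) • (x + x₀)‖ := by
      rw [norm_smul, Real.norm_of_nonneg (by norm_num)]; linarith
    rw [e1] at e2
    refine e2.trans ((norm_add_le _ _).trans ?_)
    rw [norm_smul, Real.norm_eq_abs]
    have e3 : ‖x₀ - x‖ ≤ 2 := by
      refine (norm_sub_le _ _).trans ?_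
      rw [hx₀, hx]; norm_num
    have e4 : |s - 1 / 2| * ‖x₀ - x‖ ≤ |s - 1 / 2| * 2 :=
      mul_le_mul_of_nonneg_left e3 (abs_nonneg _)
    have e5 : |2 * s - 1| = |s - 1 / 2| * 2 := by
      rw [← abs_of_pos (show (0:ℝ) < 2 by norm_num), ← abs_mul]
      congr 1
      rw [abs_of_pos (show (0:ℝ) < 2 by norm_num)]
      ring
    linarith
  rcases abs_cases (2 * s - 1) with ⟨h4, _⟩ | ⟨h4, _⟩ <;> rw [h4] at h3 <;> linarith

/-- uniformly small slices at every point -/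
theorem slices_semi [CompleteSpace E] [SeparableSpace E] {κ γ t K : ℝ}
    (hκ : κ < 1) (hγ : 0 < γ) (ht : 0 < t) (h : SULT E κ γ t) (hK0 : 0 < K)
    (hK : ∀ x w : E, ‖x‖ = 1 → dl x w ≤ K * ‖w‖ ^ 2) {ε : ℝ} (hε : 0 < ε) :
    ∃ δ : ℝ, 0 < δ ∧ ∀ x : E, ‖x‖ = 1 → SmallSlice x ε δ := by
  by_cases hex : ∃ x : E, ‖x‖ = 1
  swap
  · exact ⟨1, one_pos, fun x hx => absurd ⟨x, hx⟩ hex⟩
  obtain ⟨x₁, hx₁⟩ := hex
  have hne : ∃ f : StrongDual ℝ E, f ≠ 0 := by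
    obtain ⟨g, hg1, hg2⟩ := exists_dual_vector ℝ x₁ (by rw [hx₁]; exact one_ne_zero)
    refine ⟨g, ?_⟩
    rintro rfl
    simp at hg1
  set N : ℕ := ⌈16 / t⌉₊ with hN
  have hN0 : 0 < N := Nat.ceil_pos.2 (by positivity)
  have hN0' : (0 : ℝ) < N := by exact_mod_cast hN0
  have hN1 : 16 / t ≤ N := Nat.le_ceil _
  have hN2 : 16 / (N : ℝ) ≤ t := by
    rw [div_le_iff₀ hN0']
    rw [div_le_iff₀ ht] at hN1
    linarith
  set ρ₀ : ℝ := ε * (γ / 2) ^ N with hρ₀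
  have hρ₀0 : 0 < ρ₀ := by positivity
  have hρ₀1 : (2 / γ) ^ N * ρ₀ = ε := by
    have : (2 / γ) ^ N * (ε * (γ / 2) ^ N) = ε * ((2 / γ) * (γ / 2)) ^ N := by
      rw [mul_pow]; ring
    rw [hρ₀, this]
    have h2 : 2 / γ * (γ / 2) = 1 := by field_simp
    rw [h2, one_pow, mul_one]
  obtain ⟨f₀, x₀, δ, hf₀, hx₀, hfx₀, hδ, hsl⟩ := exists_slice (attains hK0 hK) hne hρ₀0
  have hP0 : SmallSlice x₀ ρ₀ δ := by
    intro f z hf hfx hz hfz
    have hff : f = f₀ := norming_unique hK0 hK hx₀ hf₀.le hf hfx₀ hfx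
    rw [hff] at hfz
    exact hsl z hz hfz
  refine ⟨δ / 2 ^ N, by positivity, ?_⟩
  -- the path
  have hmain : ∀ x : E, ‖x‖ = 1 → 1 ≤ ‖x + x₀‖ → SmallSlice x ε (δ / 2 ^ N) := by
    intro x hx hxs
    set q : ℕ → E := fun k => (1 - (k : ℝ) / N) • x₀ + ((k : ℝ) / N) • x with hq
    have hqn : ∀ k, k ≤ N → 1 / 4 ≤ ‖q k‖ := by
      intro k hk
      have hk' : (k : ℝ) ≤ N := by exact_mod_cast hk
      exact seg_norm hx₀ hx hxs (by positivity) (by rw [div_le_one hN0']; exact hk')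
    have hqn0 : ∀ k, k ≤ N → 0 < ‖q k‖ := fun k hk => lt_of_lt_of_le (by norm_num) (hqn k hk)
    set p : ℕ → E := fun k => ‖q k‖⁻¹ • q k with hp
    have hpn : ∀ k, k ≤ N → ‖p k‖ = 1 := by
      intro k hk
      show ‖‖q k‖⁻¹ • q k‖ = 1
      rw [norm_smul, norm_inv, norm_norm, inv_mul_cancel₀ (hqn0 k hk).ne']
    have hpp : ∀ k, k < N → ‖p (k + 1) - p k‖ ≤ t := by
      intro k hk
      refine (normalize_sub (hqn0 (k + 1) hk) (hqn0 k hk.le)).trans ?_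
      have e1 : q (k + 1) - q k = (1 / (N : ℝ)) • (x - x₀) := by
        simp only [hq]
        push_cast
        rw [add_div, smul_sub, sub_smul, sub_smul, add_smul, add_smul]
        abel
      have e2 : ‖q (k + 1) - q k‖ ≤ 2 / N := by
        rw [e1, norm_smul, Real.norm_of_nonneg (by positivity)]
        have e3 : ‖x - x₀‖ ≤ 2 := by
          refine (norm_sub_le _ _).trans ?_
          rw [hx₀, hx]; norm_num
        have e4 : 1 / (N : ℝ) * ‖x - x₀‖ ≤ 1 / (N : ℝ) * 2 :=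
          mul_le_mul_of_nonneg_left e3 (by positivity)
        refine e4.trans (le_of_eq ?_)
        ring
      have e3 : ‖q (k + 1)‖⁻¹ ≤ 4 := by
        have := inv_anti₀ (by norm_num : (0:ℝ) < 1 / 4) (hqn (k + 1) hk)
        refine this.trans (le_of_eq ?_)
        norm_num
      have e4 : ‖q (k + 1)‖⁻¹ * ‖q (k + 1) - q k‖ ≤ 4 * (2 / N) :=
        mul_le_mul e3 e2 (norm_nonneg _) (by norm_num)
      have e5 : 2 * (4 * (2 / (N : ℝ))) = 16 / N := by ring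
      linarith
    have hp0 : p 0 = x₀ := by
      show ‖q 0‖⁻¹ • q 0 = x₀
      have : q 0 = x₀ := by
        simp [hq]
      rw [this, hx₀, inv_one, one_smul]
    have hpN : p N = x := by
      show ‖q N‖⁻¹ • q N = x
      have : q N = x := by
        simp only [hq]
        rw [div_self hN0'.ne', sub_self, zero_smul, zero_add, one_smul]
      rw [this, hx, inv_one, one_smul]
    have h1 := slice_chain hκ hγ h hK0 hK hρ₀0 hδ N p hpn hpp (by rw [hp0]; exact hP0) N le_rfl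
    rw [hpN, hρ₀1] at h1
    exact h1
  intro x hx
  rcases le_or_gt 1 ‖x + x₀‖ with h1 | h1
  · exact hmain x hx h1
  · have h2 : 1 ≤ ‖-x + x₀‖ := by
      have e1 : (x + x₀) + (-x + x₀) = (2 : ℝ) • x₀ := by rw [two_smul]; abel
      have e2 := norm_add_le (x + x₀) (-x + x₀)
      rw [e1, norm_smul, hx₀, mul_one, Real.norm_of_nonneg (by norm_num)] at e2
      linarith
    have h3 := smallSlice_neg (hmain (-x) (by rwa [norm_neg]) h2)
    rwa [neg_neg] at h3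

/-- composition with a contraction, on the dual -/
noncomputable def pre (T : E →L[ℝ] E) (hT : ‖T‖ ≤ 1) : StrongDual ℝ E →L[ℝ] StrongDual ℝ E :=
  LinearMap.mkContinuous
    { toFun := fun f => f.comp T
      map_add' := fun _ _ => rfl
      map_smul' := fun _ _ => rfl } 1
    (fun f => by
      rw [one_mul]
      refine ContinuousLinearMap.opNorm_le_bound _ (norm_nonneg _) fun w => ?_
      exact (f.le_opNorm (T w)).trans
        (mul_le_mul_of_nonneg_left (contr_le hT w) (norm_nonneg _)))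

lemma pre_norm (T : E →L[ℝ] E) (hT : ‖T‖ ≤ 1) : ‖pre T hT‖ ≤ 1 :=
  LinearMap.mkContinuous_norm_le _ zero_le_one _

lemma pre_apply (T : E →L[ℝ] E) (hT : ‖T‖ ≤ 1) (f : StrongDual ℝ E) (w : E) :
    (pre T hT f) w = f (T w) := rfl

/-- the hypothesis passes to the dual space -/
theorem dual_sult [CompleteSpace E] {κ γ t K δ : ℝ} (h : SULT E κ γ t) (hK0 : 0 < K)
    (hK : ∀ x w : E, ‖x‖ = 1 → dl x w ≤ K * ‖w‖ ^ 2) (hδ : 0 < δ)
    (hsl : ∀ x : E, ‖x‖ = 1 → SmallSlice x t δ) : SULT (StrongDual ℝ E) κ γ (δ / 2) := by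
  have hale : ∀ (F : StrongDual ℝ E), ‖F‖ ≤ 1 → ∀ z, F z ≤ ‖z‖ := by
    intro F hF z
    refine (le_abs_self _).trans ?_
    have := F.le_opNorm z
    rw [Real.norm_eq_abs] at this
    refine this.trans ?_
    nlinarith [norm_nonneg z]
  have hatt : ∀ f : StrongDual ℝ E, ‖f‖ = 1 → ∃ x : E, ‖x‖ = 1 ∧ f x = 1 := by
    intro f hf
    obtain ⟨x, hx1, hx2⟩ := attains hK0 hK f
    refine ⟨x, le_antisymm hx1 ?_, by rw [hx2, hf]⟩
    have := hale f hf.le x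
    rw [hx2, hf] at this
    exact this
  have hr : Pool.Agent.Results.MP_b4da01_an.SuperreflexiveYes.Reflexive E := by
    apply Pool.Agent.Results.MP_b4da01_an.SuperreflexiveYes.core_reflexive K hK0
    intro x h hx
    have := hK x h hx
    unfold dl at this
    rw [hx] at this
    linarith
  intro f g k Φ hf hg hk hΦ hfg hκΦ η hη
  obtain ⟨x, hx, hfx⟩ := hatt f hf
  obtain ⟨y, hy, hgy⟩ := hatt g hg
  obtain ⟨u, hu⟩ := hr Φ
  have hΦa : ∀ F : StrongDual ℝ E, Φ F = F u := by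
    intro F
    rw [← hu]
    exact NormedSpace.dual_def ℝ E u F
  have hun : ‖u‖ = 1 := by
    have h1 : ‖NormedSpace.inclusionInDoubleDual ℝ E u‖ = ‖u‖ :=
      (NormedSpace.inclusionInDoubleDualLi ℝ).norm_map u
    rw [← h1, hu, hΦ]
  have hgx : 1 - δ < g x := by
    have h1 : (f - g) x ≤ ‖f - g‖ * ‖x‖ := (le_abs_self _).trans ((f - g).le_opNorm x)
    have h2 : (f - g) x = f x - g x := rfl
    rw [h2, hfx, hx, mul_one] at h1
    linarith
  have hxy : ‖x - y‖ ≤ t := hsl y hy g x hg.le hgy hx.le hgx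
  set η' : ℝ := η ^ 2 / (4 * K) with hη'
  have hη'0 : 0 < η' := by positivity
  have hsq : 2 * Real.sqrt (K * η') ≤ η := by
    have h1 : Real.sqrt (K * η') ≤ η / 2 := by
      rw [← Real.sqrt_sq (show 0 ≤ η / 2 by positivity)]
      apply Real.sqrt_le_sqrt
      rw [hη']
      refine le_of_eq ?_
      field_simp
      ring
    linarith
  obtain ⟨T, hT0, hT1, hT2⟩ := h y x u k hy hx hun hk (by rwa [norm_sub_rev])
    (by rw [← hΦa]; exact hκΦ) η' hη'0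
  refine ⟨pre T hT0, pre_norm T hT0, ?_, ?_⟩
  · have hgn : ‖pre T hT0 f‖ ≤ 1 := by
      have := (pre T hT0).le_opNorm f
      rw [hf, mul_one] at this
      exact this.trans (pre_norm T hT0)
    have hgy' : 1 - η' ≤ (pre T hT0 f) y := by
      have h1 := hale f hf.le (x - T y)
      rw [map_sub, hfx, norm_sub_rev] at h1
      rw [pre_apply]
      linarith
    refine ContinuousLinearMap.opNorm_le_bound _ hη.le fun w => ?_
    have h1 := fdiff hK0 hη'0.le hK hy hg.le hgn hgy hgy' w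
    have h2 : (pre T hT0 f - g) w = (pre T hT0 f) w - g w := rfl
    rw [h2, Real.norm_eq_abs]
    exact h1.trans (mul_le_mul_of_nonneg_right hsq (norm_nonneg _))
  · rw [hΦa, pre_apply]
    exact hT2

end

/-- the theorem for contractions -/
theorem main_semi {E : Type} [NormedAddCommGroup E] [NormedSpace ℝ E] [CompleteSpace E]
    [SeparableSpace E] {κ γ t : ℝ} (hκ : κ < 1) (hγ : 0 < γ) (ht : 0 < t) (h : SULT E κ γ t) :
    ∃ (H : Type) (instH : NormedAddCommGroup H) (instI : InnerProductSpace ℝ H)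
      (instC : CompleteSpace H), Nonempty (E ≃L[ℝ] H) := by
  obtain ⟨K, hK0, hK⟩ := smooth_of_SULT hκ hγ ht h
  obtain ⟨δ, hδ, hsl⟩ := slices_semi hκ hγ ht h hK0 hK ht
  obtain ⟨K', hK'0, hK'⟩ := smooth_of_SULT hκ hγ (half_pos hδ) (dual_sult h hK0 hK hδ hsl)
  exact hilbert_of_bounds (c := 4 / (2 + 2 * K')) (C := 2 + 2 * K) (by positivity)
    (by positivity) (sq_lower (by positivity) (sq_upper hK')) (sq_upper hK)

end Pool.H126M
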