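import Pool.Agent.H126M.Smooth

set_option autoImplicit false
set_option linter.unusedSectionVars false

/-!
# Contractions instead of isometries: smoothness of power type 2
-/

namespace Pool.H126M

open Pool.H755R2.MT
open scoped Pointwise

variable {E : Type*} [NormedAddCommGroup E] [NormedSpace ℝ E]

/-- weak uniform local transitivity of the contractions -/
def SULT (E : Type*) [NormedAddCommGroup E] [NormedSpace ℝ E] (κ γ t : ℝ) : Prop :=
  ∀ (x y u : E) (φ : StrongDual ℝ E), ‖x‖ = 1 → ‖y‖ = 1 → ‖u‖ = 1 → ‖φ‖ = 1 → ‖x - y‖ ≤ t →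
    κ ≤ φ u → ∀ η : ℝ, 0 < η → ∃ T : E →L[ℝ] E, ‖T‖ ≤ 1 ∧ ‖T x - y‖ ≤ η ∧ γ ≤ φ (T u)

lemma contr_le {T : E →L[ℝ] E} (hT : ‖T‖ ≤ 1) (v : E) : ‖T v‖ ≤ ‖v‖ := by
  refine (T.le_opNorm v).trans ?_
  nlinarith [norm_nonneg v]

lemma dl_contr {x y : E} {T : E →L[ℝ] E} {η : ℝ} (hx : ‖x‖ = 1) (hy : ‖y‖ = 1) (hT : ‖T‖ ≤ 1)
    (hTy : ‖T y - x‖ ≤ η) (w : E) : dl x (T w) ≤ dl y w + 2 * η := by
  unfold dl
  rw [hx, hy]
  have h1 : ‖x + T w‖ ≤ ‖y + w‖ + η := by
    have e1 : x + T w = T (y + w) - (T y - x) := by rw [map_add]; abel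
    rw [e1]
    refine (norm_sub_le _ _).trans ?_
    have := contr_le hT (y + w)
    linarith
  have h2 : ‖x - T w‖ ≤ ‖y - w‖ + η := by
    have e1 : x - T w = T (y - w) - (T y - x) := by rw [map_sub]; abel
    rw [e1]
    refine (norm_sub_le _ _).trans ?_
    have := contr_le hT (y - w)
    linarith
  linarith

/-- Hahn-Banach: a vector is close to the cone generated by its images -/
lemma sep_semi {κ γ κ' S : ℝ} {x y u : E} {η : ℝ} (hκ' : κ ≤ κ') (hκ'0 : 0 < κ') (hS : 0 ≤ S)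
    (hSγ : 1 - κ' < S * γ) (hu : ‖u‖ = 1)
    (h : ∀ φ : StrongDual ℝ E, ‖φ‖ = 1 → κ ≤ φ u →
      ∃ T : E →L[ℝ] E, ‖T‖ ≤ 1 ∧ ‖T x - y‖ ≤ η ∧ γ ≤ φ (T u)) :
    ∃ c ∈ convexHull ℝ (insert (0 : E) {p | ∃ T : E →L[ℝ] E, ‖T‖ ≤ 1 ∧ ‖T x - y‖ ≤ η ∧ p = S • T u}),
      ‖u - c‖ ≤ κ' := by
  set P : Set E := insert (0 : E) {p | ∃ T : E →L[ℝ] E, ‖T‖ ≤ 1 ∧ ‖T x - y‖ ≤ η ∧ p = S • T u} with hP
  set C : Set E := convexHull ℝ P with hC
  set U : Set E := C + Metric.ball (0 : E) κ' with hU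
  have hUo : IsOpen U := Metric.isOpen_ball.add_left
  have hUc : Convex ℝ U := (convex_convexHull ℝ P).add (convex_ball _ _)
  have h0C : (0 : E) ∈ C := subset_convexHull ℝ P (Set.mem_insert _ _)
  by_cases huU : u ∈ U
  · obtain ⟨c, hc, b, hb, hcb⟩ := Set.mem_add.1 huU
    rw [mem_ball_zero_iff] at hb
    refine ⟨c, hc, ?_⟩
    rw [← hcb, add_sub_cancel_left]
    exact hb.le
  · exfalso
    obtain ⟨g, hg⟩ := geometric_hahn_banach_open_point hUc hUo huU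
    have hgne : g ≠ 0 := by
      rintro rfl
      have := hg 0 (by
        have := Set.add_mem_add h0C (Metric.mem_ball_self hκ'0 : (0 : E) ∈ Metric.ball (0 : E) κ')
        rwa [add_zero] at this)
      simp at this
    have hgn : 0 < ‖g‖ := norm_pos_iff.2 hgne
    -- `g c + κ' ‖g‖ ≤ g u`
    have key : ∀ c ∈ C, g c + κ' * ‖g‖ ≤ g u := by
      intro c hc
      have h1 : ∀ b : E, ‖b‖ < κ' → g c + g b < g u := by
        intro b hb
        rw [← map_add]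
        exact hg _ (Set.add_mem_add hc (by rwa [mem_ball_zero_iff]))
      have hpos : 0 < g u - g c := by
        have := h1 0 (by simpa using hκ'0)
        rw [map_zero] at this
        linarith
      have h3 : ∀ z : E, g z ≤ (g u - g c) / κ' * ‖z‖ := by
        intro z
        rcases eq_or_ne z 0 with rfl | hz
        · simp
        have hzn : 0 < ‖z‖ := norm_pos_iff.2 hz
        by_contra hcon
        push Not at hcon
        have hgz : 0 < g z := lt_of_le_of_lt (by positivity) hcon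
        -- scale `z` so that the norm is below `κ'` but `g` is at least `g u - g c`
        set r : ℝ := (g u - g c) / g z with hr
        have hr0 : 0 < r := by positivity
        have h4 : ‖r • z‖ < κ' := by
          rw [norm_smul, Real.norm_of_nonneg hr0.le, hr, div_mul_eq_mul_div, div_lt_iff₀ hgz]
          rw [div_mul_eq_mul_div, div_lt_iff₀ hκ'0] at hcon
          linarith
        have h5 := h1 _ h4
        rw [map_smul, smul_eq_mul, hr, div_mul_cancel₀ _ hgz.ne'] at h5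
        linarith
      have h6 : ‖g‖ ≤ (g u - g c) / κ' := by
        refine ContinuousLinearMap.opNorm_le_bound _ (by positivity) fun z => ?_
        rw [Real.norm_eq_abs, abs_le]
        constructor
        · have := h3 (-z)
          rw [map_neg, norm_neg] at this
          linarith
        · exact h3 z
      rw [le_div_iff₀ hκ'0] at h6
      linarith
    set φ : StrongDual ℝ E := ‖g‖⁻¹ • g with hφ
    have hφn : ‖φ‖ = 1 := by
      rw [hφ, norm_smul, norm_inv, norm_norm, inv_mul_cancel₀ hgn.ne']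
    have hφa : ∀ z, φ z = ‖g‖⁻¹ * g z := fun z => rfl
    have key2 : ∀ c ∈ C, φ c + κ' ≤ φ u := by
      intro c hc
      have h1 := mul_le_mul_of_nonneg_left (key c hc) (inv_nonneg.2 hgn.le)
      rw [mul_add, ← hφa, ← hφa] at h1
      have h2 : ‖g‖⁻¹ * (κ' * ‖g‖) = κ' := by field_simp
      rwa [h2] at h1
    have h1 := key2 0 h0C
    rw [map_zero, zero_add] at h1
    obtain ⟨T, hT0, hT1, hT2⟩ := h φ hφn (hκ'.trans h1)
    have h2 := key2 (S • T u) (subset_convexHull ℝ P (Set.mem_insert_of_mem _ ⟨T, hT0, hT1, rfl⟩))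
    rw [map_smul, smul_eq_mul] at h2
    have h3 : φ u ≤ 1 := by
      have := φ.le_opNorm u
      rw [hφn, hu, Real.norm_eq_abs] at this
      linarith [le_abs_self (φ u)]
    have h4 : S * γ ≤ S * φ (T u) := mul_le_mul_of_nonneg_left hT2 hS
    linarith

/-- moving a nearly extremal direction -/
lemma moved_semi {κ γ κ' lam S a K σ t t' : ℝ} (h : SULT E κ γ t) (hκκ' : κ ≤ κ') (hκ'0 : 0 < κ')
    (hlam : lam = 1 - κ') (hlam0 : 0 < lam) (hlam1 : lam < 1) (hS0 : 0 < S)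
    (hSγ : 1 - κ' < S * γ) (ha2 : 2 * S / lam ≤ a) (ht'1 : t' ≤ t / 2)
    (ht'3 : t' ≤ 1 / 16) (hσ0 : 0 < σ) (hKpos : 0 < K)
    (hKub : ∀ x w : E, ‖x‖ = 1 → σ ≤ ‖w‖ → dl x w ≤ K * ‖w‖ ^ 2)
    {x w z : E} (hx : ‖x‖ = 1) (hw : σ ≤ ‖w‖)
    (hxw : (1 - lam / 2) * K * ‖w‖ ^ 2 < dl x w) (hzx : ‖z - x‖ ≤ t') :
    1 / 4 * K * ‖w‖ ^ 2 ≤ dl z (a • w) := by
  have hs0 : 0 < ‖w‖ := hσ0.trans_le hw
  have hz1 : |‖z‖ - 1| ≤ t' := by
    rw [← hx]
    exact (abs_norm_sub_norm_le z x).trans hzx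
  obtain ⟨hz2, hz3⟩ := abs_le.1 hz1
  have hz0 : 0 < ‖z‖ := by linarith
  have hzhalf : 1 / 2 ≤ ‖z‖ := by linarith
  have hztwo : ‖z‖ ≤ 2 := by linarith
  set y : E := ‖z‖⁻¹ • z with hy
  have hyn : ‖y‖ = 1 := by
    rw [hy, norm_smul, norm_inv, norm_norm, inv_mul_cancel₀ hz0.ne']
  have hzy : z = ‖z‖ • y := by
    rw [hy, smul_inv_smul₀ hz0.ne']
  have hyz : ‖z - y‖ ≤ t' := by
    have : z - y = (‖z‖ - 1) • y := by
      rw [sub_smul, one_smul, ← hzy]
    rw [this, norm_smul, hyn, mul_one]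
    exact hz1
  have hxy : ‖y - x‖ ≤ t := by
    have : y - x = (y - z) + (z - x) := by abel
    rw [this]
    refine (norm_add_le _ _).trans ?_
    rw [norm_sub_rev y z]
    linarith
  set u : E := ‖w‖⁻¹ • w with hu
  have hun : ‖u‖ = 1 := by
    rw [hu, norm_smul, norm_inv, norm_norm, inv_mul_cancel₀ hs0.ne']
  have hwu : w = ‖w‖ • u := by
    rw [hu, smul_inv_smul₀ hs0.ne']
  refine le_of_forall_pos_le_add fun η hη => ?_
  obtain ⟨c, hc, huc⟩ := sep_semi (x := y) (y := x) (u := u) (η := η / 8) hκκ' hκ'0 hS0.le hSγ hun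
    (fun φ hφ hφu => h y x u φ hyn hx hun hφ hxy hφu (η / 8) (by positivity))
  -- `dl x` is large at a multiple of `c`
  set b : ℝ := lam⁻¹ * ‖w‖ with hb
  have hb0 : 0 < b := by positivity
  have hcbig : 1 / 2 * K * ‖w‖ ^ 2 ≤ dl x (b • c) := by
    set v : E := (1 - lam)⁻¹ • (w - ‖w‖ • c) with hv
    have h1l : 0 < 1 - lam := by linarith
    have hwv : w = (1 - lam) • v + lam • (b • c) := by
      rw [hv, smul_inv_smul₀ h1l.ne', smul_smul, hb, ← mul_assoc,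
        mul_inv_cancel₀ hlam0.ne', one_mul]
      abel
    have hvn : ‖v‖ ≤ ‖w‖ := by
      rw [hv, norm_smul, norm_inv, Real.norm_of_nonneg h1l.le, inv_mul_le_iff₀ h1l]
      have e1 : w - ‖w‖ • c = ‖w‖ • (u - c) := by
        rw [smul_sub, ← hwu]
      have e2 : 1 - lam = κ' := by rw [hlam]; ring
      rw [e1, norm_smul, norm_norm, e2, mul_comm]
      exact mul_le_mul_of_nonneg_right huc hs0.le
    have hdv : dl x v ≤ K * ‖w‖ ^ 2 :=
      dl_ray hσ0 hw hvn hKpos.le (fun w' hw' => hKub x w' hx hw')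
    have hcv := dl_convex x v (b • c) hlam0.le hlam1.le
    rw [← hwv] at hcv
    have e1 : (1 - lam) * dl x v ≤ (1 - lam) * (K * ‖w‖ ^ 2) :=
      mul_le_mul_of_nonneg_left hdv h1l.le
    have e2 : lam * (1 / 2 * K * ‖w‖ ^ 2) ≤ lam * dl x (b • c) := by nlinarith
    exact le_of_mul_le_mul_left e2 hlam0
  obtain ⟨p, hp, hpc'⟩ := exists_gen x b hc
  have hpbig : 1 / 2 * K * ‖w‖ ^ 2 ≤ dl x (b • p) := hcbig.trans hpc'
  rcases Set.mem_insert_iff.1 hp with hp0 | ⟨T, hT0, hT1, hT2⟩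
  · exfalso
    rw [hp0, smul_zero, dl_zero] at hpbig
    have : 0 < 1 / 2 * K * ‖w‖ ^ 2 := by positivity
    linarith
  · have e1 : b • p = (S / lam) • T w := by
      rw [hT2, hb, smul_smul]
      conv_rhs => rw [hwu, map_smul, smul_smul]
      congr 1
      field_simp
    rw [e1] at hpbig
    have e2 : dl x ((S / lam) • T w) ≤ dl x ((‖z‖⁻¹ * a) • T w) := by
      apply dl_mono _ _ (by positivity)
      have e3 : 1 / 2 ≤ ‖z‖⁻¹ := by
        rw [one_div]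
        exact inv_anti₀ hz0 hztwo
      have e4 : S / lam = 1 / 2 * (2 * S / lam) := by ring
      rw [e4]
      exact mul_le_mul e3 ha2 (by positivity) (by positivity)
    have e5 := dl_contr hx hyn hT0 hT1 ((‖z‖⁻¹ * a) • w)
    rw [map_smul] at e5
    have e7 : dl z (a • w) = ‖z‖ * dl y ((‖z‖⁻¹ * a) • w) := by
      rw [← dl_smul _ _ hz0.le, ← hzy, smul_smul, ← mul_assoc, mul_inv_cancel₀ hz0.ne',
        one_mul]
    have e8 : 0 ≤ dl y ((‖z‖⁻¹ * a) • w) := dl_nonneg _ _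
    rw [e7]
    have e9 : 1 / 2 * dl y ((‖z‖⁻¹ * a) • w) ≤ ‖z‖ * dl y ((‖z‖⁻¹ * a) • w) :=
      mul_le_mul_of_nonneg_right hzhalf e8
    linarith

/-- Step 1: smoothness of power type 2 -/
theorem smooth_of_SULT {κ γ t : ℝ} (hκ : κ < 1) (hγ : 0 < γ) (ht : 0 < t)
    (h : SULT E κ γ t) :
    ∃ K : ℝ, 0 < K ∧ ∀ x w : E, ‖x‖ = 1 → dl x w ≤ K * ‖w‖ ^ 2 := by
  set κ' : ℝ := (1 + max κ 0) / 2 with hκ'
  have hm0 : 0 ≤ max κ 0 := le_max_right _ _
  have hm1 : max κ 0 < 1 := max_lt hκ one_pos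
  have hκκ' : κ ≤ κ' := by
    have := le_max_left κ 0
    rw [hκ']; linarith
  have hκ'0 : 0 < κ' := by rw [hκ']; linarith
  have hκ'1 : κ' < 1 := by rw [hκ']; linarith
  set lam : ℝ := 1 - κ' with hlam
  have hlam0 : 0 < lam := by rw [hlam]; linarith
  have hlam1 : lam < 1 := by rw [hlam]; linarith
  set S : ℝ := 1 / γ with hS
  have hS0 : 0 < S := by positivity
  have hSγ : 1 - κ' < S * γ := by
    rw [hS, div_mul_cancel₀ _ hγ.ne']; linarith
  set a : ℝ := max (2 * S / lam) 1 with ha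
  have ha1 : 1 ≤ a := le_max_right _ _
  have ha2 : 2 * S / lam ≤ a := le_max_left _ _
  have ha0 : 0 < a := by linarith
  set t' : ℝ := min (t / 2) (1 / 16) with ht'
  have ht'0 : 0 < t' := lt_min (by linarith) (by norm_num)
  have ht'1 : t' ≤ t / 2 := min_le_left _ _
  have ht'3 : t' ≤ 1 / 16 := min_le_right _ _
  have hKs : 0 < 16 * a ^ 2 / t' := by positivity
  refine ⟨16 * a ^ 2 / t', hKs, ?_⟩
  intro x₀ w₀ hx₀
  rcases eq_or_ne w₀ 0 with rfl | hw₀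
  · rw [dl_zero]; positivity
  have hσ0 : 0 < ‖w₀‖ := norm_pos_iff.2 hw₀
  set σ : ℝ := ‖w₀‖ with hσ
  set R : Set ℝ := {r | ∃ x w : E, ‖x‖ = 1 ∧ σ ≤ ‖w‖ ∧ r = dl x w / ‖w‖ ^ 2} with hR
  have hbdd : BddAbove R := by
    refine ⟨2 / σ, ?_⟩
    rintro r ⟨x, w, _, hw, rfl⟩
    have hw0 : 0 < ‖w‖ := hσ0.trans_le hw
    rw [div_le_div_iff₀ (by positivity) hσ0]
    have := dl_le x w
    have h5 := dl_nonneg x w
    nlinarith
  have hmem : dl x₀ w₀ / ‖w₀‖ ^ 2 ∈ R := ⟨x₀, w₀, hx₀, le_rfl, rfl⟩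
  set K : ℝ := sSup R with hK
  have hKub : ∀ x w : E, ‖x‖ = 1 → σ ≤ ‖w‖ → dl x w ≤ K * ‖w‖ ^ 2 := by
    intro x w hx hw
    have hw0 : 0 < ‖w‖ := hσ0.trans_le hw
    have := le_csSup hbdd (show dl x w / ‖w‖ ^ 2 ∈ R from ⟨x, w, hx, hw, rfl⟩)
    rwa [div_le_iff₀ (by positivity)] at this
  suffices hmain : K ≤ 16 * a ^ 2 / t' by
    have h1 := hKub x₀ w₀ hx₀ le_rfl
    exact h1.trans (mul_le_mul_of_nonneg_right hmain (by positivity))
  by_contra hcon
  push Not at hcon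
  have hKpos : 0 < K := hKs.trans hcon
  obtain ⟨r, ⟨x, w, hx, hw, rfl⟩, hr⟩ := exists_lt_of_lt_csSup ⟨_, hmem⟩
    (show (1 - lam / 2) * K < sSup R by rw [← hK]; nlinarith)
  have hs0 : 0 < ‖w‖ := hσ0.trans_le hw
  have hxw : (1 - lam / 2) * K * ‖w‖ ^ 2 < dl x w := by
    rwa [lt_div_iff₀ (by positivity)] at hr
  have hxw2 := dl_le x w
  have hbig : K * t' ≤ 16 * a ^ 2 := by
    have haw : ‖a • w‖ = a * ‖w‖ := by rw [norm_smul, Real.norm_of_nonneg ha0.le]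
    rcases le_or_gt t' ‖a • w‖ with hst | hst
    · have h1 : (1 - lam / 2) * K * ‖w‖ ≤ 2 := by
        have : (1 - lam / 2) * K * ‖w‖ * ‖w‖ ≤ 2 * ‖w‖ := by nlinarith
        exact le_of_mul_le_mul_right this hs0
      have h2 : K * ‖w‖ ≤ 4 := by nlinarith
      rw [haw] at hst
      have h3 : K * t' ≤ K * (a * ‖w‖) := mul_le_mul_of_nonneg_left hst hKpos.le
      have h4 : K * (a * ‖w‖) = a * (K * ‖w‖) := by ring
      have h5 : a * (K * ‖w‖) ≤ a * 4 := mul_le_mul_of_nonneg_left h2 ha0.le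
      nlinarith
    · have hβ : ∀ z : E, ‖z - x‖ ≤ t' → 1 / 4 * K * ‖w‖ ^ 2 ≤ dl z (a • w) := by
        intro z hzx
        exact moved_semi h hκκ' hκ'0 hlam hlam0 hlam1 hS0 hSγ ha2 ht'1 ht'3 hσ0 hKpos hKub hx hw hxw hzx
      have h1 := chain_bound hx (by rw [haw]; positivity) hst hβ
      rw [haw] at h1
      have h2 : (K * t') * ‖w‖ ^ 2 ≤ (16 * a ^ 2) * ‖w‖ ^ 2 := by nlinarith
      exact le_of_mul_le_mul_right h2 (by positivity)
  have hfin : K ≤ 16 * a ^ 2 / t' := by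
    rw [le_div_iff₀ (by positivity)]
    exact hbig
  linarith

end Pool.H126M
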