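import Pool.Agent.H126M.Smooth
import Pool.Agent.H755R2.MT.Slice

set_option autoImplicit false
set_option linter.unusedSectionVars false

/-!
# Almost transitivity and uniformly small slices
-/

namespace Pool.H126M

open TopologicalSpace Pool.H755R2.MT

variable {E : Type*} [NormedAddCommGroup E] [NormedSpace ℝ E]

lemma local_trans {κ γ t : ℝ} (hκ : κ < 1) (h : WULT E κ γ t) (z w : E) (hz : ‖z‖ = 1)
    (hw : ‖w‖ = 1) (hzw : ‖z - w‖ ≤ t) {η : ℝ} (hη : 0 < η) :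
    ∃ T : E ≃ₗᵢ[ℝ] E, ‖T z - w‖ ≤ η := by
  obtain ⟨φ, hφ1, hφ2⟩ := exists_dual_vector ℝ z (by rw [hz]; exact one_ne_zero)
  have hφz : φ z = 1 := by rw [hφ2, hz]; simp
  obtain ⟨T, hT, _⟩ := h z w z φ hz hw hz hφ1 hzw (by rw [hφz]; exact hκ.le) η hη
  exact ⟨T, hT⟩

/-- almost transitivity (dimension at least two) -/
theorem almost_transitive {κ γ t : ℝ} (hrank : 1 < Module.rank ℝ E) (hκ : κ < 1) (ht : 0 < t)
    (h : WULT E κ γ t) (x y : E) (hx : ‖x‖ = 1) (hy : ‖y‖ = 1) :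
    ∀ η : ℝ, 0 < η → ∃ T : E ≃ₗᵢ[ℝ] E, ‖T x - y‖ ≤ η := by
  have hS : IsPreconnected (Metric.sphere (0 : E) 1) := isPreconnected_sphere hrank 0 1
  rw [isPreconnected_iff_subset_of_disjoint] at hS
  set O : Set E := {z | ‖z‖ = 1 ∧ ∀ η : ℝ, 0 < η → ∃ T : E ≃ₗᵢ[ℝ] E, ‖T x - z‖ ≤ η} with hO
  set N : Set E := {z | ‖z‖ = 1 ∧ ¬ ∀ η : ℝ, 0 < η → ∃ T : E ≃ₗᵢ[ℝ] E, ‖T x - z‖ ≤ η} with hN
  set u : Set E := ⋃ z ∈ O, Metric.ball z t with hu
  set v : Set E := ⋃ z ∈ N, Metric.ball z t with hv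
  have huo : IsOpen u := isOpen_biUnion fun z _ => Metric.isOpen_ball
  have hvo : IsOpen v := isOpen_biUnion fun z _ => Metric.isOpen_ball
  have hcl : ∀ z w : E, ‖z‖ = 1 → ‖w‖ = 1 → ‖z - w‖ < t →
      (∀ η : ℝ, 0 < η → ∃ T : E ≃ₗᵢ[ℝ] E, ‖T x - z‖ ≤ η) →
      ∀ η : ℝ, 0 < η → ∃ T : E ≃ₗᵢ[ℝ] E, ‖T x - w‖ ≤ η := by
    intro z w hz hw hzw hT η hη
    obtain ⟨T, hT⟩ := hT (η / 2) (by positivity)
    obtain ⟨T', hT'⟩ := local_trans hκ h z w hz hw hzw.le (half_pos hη)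
    refine ⟨T.trans T', ?_⟩
    rw [LinearIsometryEquiv.trans_apply]
    have e1 : T' (T x) - w = T' (T x - z) + (T' z - w) := by
      rw [map_sub]; abel
    rw [e1]
    refine (norm_add_le _ _).trans ?_
    rw [T'.norm_map]
    linarith
  have hcov : Metric.sphere (0 : E) 1 ⊆ u ∪ v := by
    intro z hz
    rw [mem_sphere_zero_iff_norm] at hz
    by_cases hzO : ∀ η : ℝ, 0 < η → ∃ T : E ≃ₗᵢ[ℝ] E, ‖T x - z‖ ≤ η
    · left
      exact Set.mem_biUnion (show z ∈ O from ⟨hz, hzO⟩) (Metric.mem_ball_self ht)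
    · right
      exact Set.mem_biUnion (show z ∈ N from ⟨hz, hzO⟩) (Metric.mem_ball_self ht)
  have hdis : Metric.sphere (0 : E) 1 ∩ (u ∩ v) = ∅ := by
    rw [Set.eq_empty_iff_forall_notMem]
    rintro z ⟨hz, hzu, hzv⟩
    rw [mem_sphere_zero_iff_norm] at hz
    obtain ⟨a, ha, hza⟩ := Set.mem_iUnion₂.1 hzu
    obtain ⟨b, hb, hzb⟩ := Set.mem_iUnion₂.1 hzv
    rw [Metric.mem_ball, dist_eq_norm] at hza hzb
    have h1 := hcl a z ha.1 hz (by rwa [norm_sub_rev]) ha.2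
    exact hb.2 (hcl z b hz hb.1 hzb h1)
  rcases hS u v huo hvo hcov hdis with h1 | h1
  · have h2 := h1 (mem_sphere_zero_iff_norm.2 hy)
    obtain ⟨a, ha, hza⟩ := Set.mem_iUnion₂.1 h2
    rw [Metric.mem_ball, dist_eq_norm] at hza
    exact hcl a y ha.1 hy (by rwa [norm_sub_rev]) ha.2
  · exfalso
    have h2 := h1 (mem_sphere_zero_iff_norm.2 hx)
    obtain ⟨a, ha, hza⟩ := Set.mem_iUnion₂.1 h2
    rw [Metric.mem_ball, dist_eq_norm] at hza
    exact ha.2 (hcl x a hx ha.1 hza fun η hη =>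
      ⟨LinearIsometryEquiv.refl ℝ E, by simpa using hη.le⟩)

/-- uniformly small slices at every point -/
theorem slices [CompleteSpace E] [SeparableSpace E] {κ γ t K : ℝ}
    (hrank : 1 < Module.rank ℝ E) (hκ : κ < 1) (ht : 0 < t) (h : WULT E κ γ t) (hK0 : 0 < K)
    (hK : ∀ x w : E, ‖x‖ = 1 → dl x w ≤ K * ‖w‖ ^ 2) {ε : ℝ} (hε : 0 < ε) :
    ∃ δ : ℝ, 0 < δ ∧ ∀ (x z : E) (f : StrongDual ℝ E), ‖x‖ = 1 → ‖f‖ ≤ 1 → f x = 1 →
      ‖z‖ ≤ 1 → 1 - δ < f z → ‖z - x‖ ≤ ε := by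
  have hne : ∃ f : StrongDual ℝ E, f ≠ 0 := by
    have : Nontrivial E := by
      have : 0 < Module.rank ℝ E := lt_trans zero_lt_one hrank
      exact rank_pos_iff_nontrivial.1 this
    obtain ⟨x, hx⟩ := exists_ne (0 : E)
    obtain ⟨g, hg1, hg2⟩ := exists_dual_vector ℝ x (norm_ne_zero_iff.2 hx)
    refine ⟨g, ?_⟩
    rintro rfl
    simp at hg1
  obtain ⟨f₀, x₀, δ, hf₀, hx₀, hfx₀, hδ, hsl⟩ :=
    exists_slice (attains hK0 hK) hne (half_pos hε)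
  refine ⟨δ / 2, half_pos hδ, ?_⟩
  intro x z f hx hf hfx hz hfz
  set η : ℝ := min (ε / 2) (δ ^ 2 / (16 * K)) with hη
  have hη0 : 0 < η := lt_min (by positivity) (by positivity)
  have hη1 : η ≤ ε / 2 := min_le_left _ _
  have hη2 : η ≤ δ ^ 2 / (16 * K) := min_le_right _ _
  have hsq : Real.sqrt (K * η) ≤ δ / 4 := by
    rw [← Real.sqrt_sq (show 0 ≤ δ / 4 by positivity)]
    apply Real.sqrt_le_sqrt
    have : K * η ≤ K * (δ ^ 2 / (16 * K)) := mul_le_mul_of_nonneg_left hη2 hK0.le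
    refine this.trans (le_of_eq ?_)
    field_simp
    ring
  obtain ⟨T, hT⟩ := almost_transitive hrank hκ ht h x₀ x hx₀ hx η hη0
  set g : StrongDual ℝ E := f.comp (T : E →L[ℝ] E) with hg
  have hga : ∀ w, g w = f (T w) := fun w => rfl
  have hgn : ‖g‖ ≤ 1 := by
    refine ContinuousLinearMap.opNorm_le_bound _ zero_le_one fun w => ?_
    rw [hga]
    refine (f.le_opNorm _).trans ?_
    rw [T.norm_map]
    exact mul_le_mul_of_nonneg_right hf (norm_nonneg _)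
  have hgx₀ : 1 - η ≤ g x₀ := by
    have h1 : f (x - T x₀) ≤ ‖x - T x₀‖ := by
      refine (le_abs_self _).trans ?_
      have := f.le_opNorm (x - T x₀)
      rw [Real.norm_eq_abs] at this
      refine this.trans ?_
      nlinarith [norm_nonneg (x - T x₀)]
    rw [map_sub, hfx, norm_sub_rev] at h1
    rw [hga]
    linarith
  have hzn : ‖T.symm z‖ ≤ 1 := by rwa [T.symm.norm_map]
  have hd := fdiff hK0 hη0.le hK hx₀ hf₀.le hgn hfx₀ hgx₀ (T.symm z)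
  have hd2 : 2 * Real.sqrt (K * η) * ‖T.symm z‖ ≤ δ / 2 := by
    have h0 : 0 ≤ 2 * Real.sqrt (K * η) := by positivity
    have h1 : 2 * Real.sqrt (K * η) * ‖T.symm z‖ ≤ 2 * Real.sqrt (K * η) * 1 :=
      mul_le_mul_of_nonneg_left hzn h0
    linarith
  have hgz : g (T.symm z) = f z := by rw [hga, T.apply_symm_apply]
  rw [hgz] at hd
  have h1 := hsl (T.symm z) hzn (by
    have := (abs_le.1 (hd.trans hd2)).2
    linarith)
  have h2 : z - x = T (T.symm z - x₀) + (T x₀ - x) := by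
    rw [map_sub, T.apply_symm_apply]; abel
  rw [h2]
  refine (norm_add_le _ _).trans ?_
  rw [T.norm_map]
  linarith

end Pool.H126M
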